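import Mathlib
import Pool.Agent.H29.QuatM

namespace Pool.Agent.Results.MP_64d585_al.Extend
open Quaternion Matrix Pool.Agent.H29.QuatM

theorem result (φ : ℍ[ℝ] →ₗ[ℝ] ℍ[ℝ]) (hφ : NonStd φ) (β : ℍ[ℝ]) (hβ : φ β = -β) (hn : ‖β‖ = 1)
    (n : ℕ) (H A : Mat n) (hH : IsUnit H) (hs : tr φ H = H) (hA : H * A = -(tr φ A * H))
    (N : Sub n) (hN : Inv A N) (hN0 : Neutral φ (H * A) N) :
    (∃ L : Sub n, N ≤ L ∧ Inv A L ∧ Maximal (Nonneg fun x => β⁻¹ * form φ (H * A) x x) L) ∧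
    (∃ L : Sub n, N ≤ L ∧ Inv A L ∧ Maximal (Nonpos fun x => β⁻¹ * form φ (H * A) x x) L) := by
  obtain ⟨⟨L, h1, h2, h3, -⟩, ⟨L', h1', h2', h3', -⟩⟩ := nstd hφ hβ hn H A hH hs hA Set.univ
    (fun _ _ _ _ => trivial) (fun _ _ _ _ => trivial) N hN hN0 (Set.subset_univ _)
  exact ⟨⟨L, h1, h2, h3⟩, ⟨L', h1', h2', h3'⟩⟩

end Pool.Agent.Results.MP_64d585_al.Extend
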